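import Pool.Agent.Q10.KZC

/-!
# The inequality of the strong n-conjecture for almost all tuples on a rational curve

`P 0, ..., P (n-1)` are pairwise coprime polynomials over `ℚ` (also at infinity) with sum zero, of
maximal degree `D`. Their product is an arbitrary polynomial: its irreducible factors over `ℚ` may
have any degree. We consider the tuples of nonzero integers with greatest common divisor one on the
curve `x ↦ (P 0 (x) : ... : P (n-1) (x))`, ordered by their size, and show that almost all of them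
satisfy `max |z i| ≤ c rad ^ M` if `M > D / (2 S₁)`.
-/

set_option autoImplicit false

namespace Pool.Agent.Results.MP_7ecdd4_nt.AlmostAllOnCurves

open Polynomial

open Classical in
/-- the different monic irreducible factors over `ℚ` of the product of the `P i` -/
noncomputable def factors {n : ℕ} (P : Fin n → ℚ[X]) : Finset ℚ[X] :=
  (UniqueFactorizationMonoid.normalizedFactors (∏ i, P i)).toFinset

open Classical in
/-- the number of the different points of the projective line over an algebraic closure of `ℚ` at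
which the curve meets the coordinate hyperplanes (infinity is one of them if the degrees of the
`P i` are not all equal) -/
noncomputable def zeros {n : ℕ} (P : Fin n → ℚ[X]) : ℕ :=
  ∑ g ∈ factors P, g.natDegree + if ∃ i j, (P i).natDegree < (P j).natDegree then 1 else 0

open Classical in
/-- the number of the rational points among them -/
noncomputable def rationalZeros {n : ℕ} (P : Fin n → ℚ[X]) : ℕ :=
  ((factors P).filter fun g => g.natDegree = 1).card +
    if ∃ i j, (P i).natDegree < (P j).natDegree then 1 else 0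

open Classical in
/-- the number of the irreducible factors of degree at least two, plus half the number of the
rational zeros if there are at least two of them -/
noncomputable def S₁ {n : ℕ} (P : Fin n → ℚ[X]) : ℝ :=
  (((factors P).filter fun g => 2 ≤ g.natDegree).card : ℝ) +
    if 2 ≤ rationalZeros P then (rationalZeros P : ℝ) / 2 else 0

/-- the admissible tuples of the problem -/
def Admissible {n : ℕ} (z : Fin n → ℤ) : Prop :=
  (∀ i, z i ≠ 0) ∧ (∀ i j, i ≠ j → IsCoprime (z i) (z j)) ∧ ∑ i, z i = 0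

/-- the radical of the product of the coordinates -/
def rad {n : ℕ} (z : Fin n → ℤ) : ℕ := ∏ p ∈ (∏ i, z i).natAbs.primeFactors, p

/-- the tuples of nonzero integers with greatest common divisor one which are proportional to
`(P 0 (x), ..., P (n-1) (x))` for some rational `x`; their sum is zero -/
def OnCurve {n : ℕ} (P : Fin n → ℚ[X]) : Set (Fin n → ℤ) :=
  {z | (∀ i, z i ≠ 0) ∧ (∀ d : ℤ, (∀ i, d ∣ z i) → IsUnit d) ∧
    ∃ x r : ℚ, ∀ i, (z i : ℚ) = r * (P i).eval x}

/-- the tuples on the curve with coordinates of absolute value at most `B` -/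
def AllUpTo {n : ℕ} (P : Fin n → ℚ[X]) (B : ℝ) : Set (Fin n → ℤ) :=
  {z | z ∈ OnCurve P ∧ ∀ i, |(z i : ℝ)| ≤ B}

/-- those among them which violate `max |z i| ≤ c rad ^ M` -/
def Violations {n : ℕ} (P : Fin n → ℚ[X]) (M c B : ℝ) : Set (Fin n → ℤ) :=
  {z | z ∈ AllUpTo P B ∧ ∃ i, c * (rad z : ℝ) ^ M < |(z i : ℝ)|}

section
variable {n : ℕ} {P : Fin n → ℚ[X]}

open Pool.Agent.Q10.KZ

theorem zeros_eq : zeros P = nQ P := by
  classical
  unfold zeros nQ Uneq
  congr!

theorem rationalZeros_eq : rationalZeros P = nL P := by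
  classical
  unfold rationalZeros nL Uneq
  congr!

theorem S₁_eq : S₁ P = T1 P := by
  unfold S₁ T1
  rw [rationalZeros_eq]
  rfl

theorem allUpTo_eq (hn : 0 < n) (B : ℝ) : AllUpTo P B = AA P (fun _ => True) B := by
  ext z
  constructor
  · rintro ⟨⟨h1, h2, h3⟩, h5⟩
    exact ⟨h1, h2, h3, trivial, (mz_le_iff hn).2 h5⟩
  · rintro ⟨h1, h2, h3, -, h5⟩
    exact ⟨⟨h1, h2, h3⟩, (mz_le_iff hn).1 h5⟩

theorem violations_eq (hn : 0 < n) (M c B : ℝ) :
    Violations P M c B = VA P (fun _ => True) M c B := by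
  ext z
  unfold Violations VA
  rw [Set.mem_ofPred_eq, Set.mem_ofPred_eq, allUpTo_eq hn, lt_mz_iff hn]
  rfl

end

open Pool.Agent.Q10.KZ in
/-- **Theorem.** Let `P 0, ..., P (n-1)` be nonzero polynomials over `ℚ` with sum zero, of maximal
degree `D ≥ 1`, pairwise coprime also at infinity (at most one of them has degree less than `D`),
and `q` the number of their different zeros on the projective line.

(0) All admissible tuples proportional to `(P 0 (x), ..., P (n-1) (x))` for some rational `x` are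
tuples on the curve, and for `n = 3` all tuples on the curve are admissible. Moreover `2 S₁ = q` if
the irreducible factors of the product of the `P i` have degree one or two and not exactly one of
the zeros is rational.

(1) For all `M, c, δ > 0` at most `C B ^ (1 / (S₁ M) + δ)` tuples on the curve with `max |z i| ≤ B`
violate `max |z i| ≤ c rad ^ M`.

(2) For every `δ > 0` and all large `B` there are at least `B ^ (2 / D - δ)` tuples on the curve
with `max |z i| ≤ B`.

(3) If `M > D / (2 S₁)`, then the number in (1) is at most `B ^ (-ν)` times the number in (2), for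
some `ν > 0` and all large `B`. -/
theorem result (n : ℕ) (P : Fin n → ℚ[X]) (hP : ∀ i, P i ≠ 0) (hsum : ∑ i, P i = 0)
    (hcop : ∀ i j, i ≠ j → IsCoprime (P i) (P j))
    (D : ℕ) (hD : 1 ≤ D) (hdeg : ∀ i, (P i).natDegree ≤ D)
    (hinf : ∀ i j, i ≠ j → (P i).natDegree = D ∨ (P j).natDegree = D)
    (hn : 3 ≤ n) :
    ((∀ z : Fin n → ℤ, Admissible z → (∃ x r : ℚ, ∀ i, (z i : ℚ) = r * (P i).eval x) →
      z ∈ OnCurve P) ∧ (n = 3 → ∀ z ∈ OnCurve P, Admissible z)) ∧
    ((∀ g ∈ factors P, g.natDegree ≤ 2) → rationalZeros P ≠ 1 → 2 * S₁ P = zeros P) ∧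
    (∀ M c δ : ℝ, 0 < M → 0 < c → 0 < δ → ∃ C : ℝ, ∀ B : ℝ, 1 ≤ B →
      ((Violations P M c B).ncard : ℝ) ≤ C * B ^ (1 / (S₁ P * M) + δ)) ∧
    (∀ δ : ℝ, 0 < δ → ∃ B₀ : ℝ, ∀ B : ℝ, B₀ ≤ B →
      B ^ (2 / (D : ℝ) - δ) ≤ ((AllUpTo P B).ncard : ℝ)) ∧
    (∀ M c : ℝ, (D : ℝ) / (2 * S₁ P) < M → 0 < c → ∃ ν : ℝ, 0 < ν ∧ ∃ B₀ : ℝ, ∀ B : ℝ, B₀ ≤ B →
      ((Violations P M c B).ncard : ℝ) ≤ B ^ (-ν) * ((AllUpTo P B).ncard : ℝ)) := by
  classical
  have hn0 : 0 < n := by omega
  obtain ⟨i0, i1, hne⟩ : ∃ i j : Fin n, i ≠ j :=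
    ⟨⟨0, by omega⟩, ⟨1, by omega⟩, by simp [Fin.ext_iff]⟩
  have hdeg' : ∃ i, (P i).natDegree = D := by
    rcases hinf i0 i1 hne with h | h
    · exact ⟨i0, h⟩
    · exact ⟨i1, h⟩
  have hu : ∃ u : Fin n → ℚ[X], ∑ i, u i * P i = 1 := by
    obtain ⟨a, b, hab⟩ := hcop i0 i1 hne
    refine ⟨fun k => if k = i0 then a else if k = i1 then b else 0, ?_⟩
    have e1 : ∀ k, (if k = i0 then a else if k = i1 then b else 0) * P k =
        (if k = i0 then a * P i0 else 0) + if k = i1 then b * P i1 else 0 := by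
      intro k
      by_cases h1 : k = i0
      · subst h1
        rw [if_pos rfl, if_pos rfl, if_neg hne, add_zero]
      · rw [if_neg h1, if_neg h1]
        by_cases h2 : k = i1
        · subst h2
          rw [if_pos rfl, if_pos rfl, zero_add]
        · rw [if_neg h2, if_neg h2, zero_mul, zero_add]
    rw [Finset.sum_congr rfl fun k _ => e1 k, Finset.sum_add_distrib,
      Finset.sum_ite_eq' Finset.univ i0, Finset.sum_ite_eq' Finset.univ i1,
      if_pos (Finset.mem_univ _), if_pos (Finset.mem_univ _)]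
    exact hab
  have hA : ∀ z : Fin n → ℤ, (∀ i, z i ≠ 0) → Pool.Agent.Y557.NF.Prim z → ∀ x r : ℚ,
      x ∉ (∅ : Set ℚ) → (∀ i, (z i : ℚ) = r * (P i).eval x) → (fun _ => True) z :=
    fun z hz _ x r hx h => trivial
  obtain ⟨h5, h5b, h6⟩ := viol hP hu hD hdeg hdeg' (fun _ => True) Set.finite_empty hA
  simp only [violations_eq hn0, allUpTo_eq hn0, S₁_eq]
  refine ⟨⟨?_, ?_⟩, ?_, ?_, h5b, ?_⟩
  · rintro z ⟨a1, a2, a3⟩ h
    refine ⟨a1, fun d hd => ?_, h⟩
    exact (a2 i0 i1 hne).isUnit_of_dvd' (hd i0) (hd i1)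
  · rintro hn3 z ⟨a1, a2, x, r, h⟩
    have hs0 : ∑ i, z i = 0 := by
      have e1 : ((∑ i, z i : ℤ) : ℚ) = 0 := by
        push_cast
        rw [Finset.sum_congr rfl fun i _ => h i, ← Finset.mul_sum, ← eval_finsetSum, hsum,
          eval_zero, mul_zero]
      exact_mod_cast e1
    refine ⟨a1, fun i j hij => ?_, hs0⟩
    rw [Int.isCoprime_iff_gcd_eq_one]
    have e2 : IsUnit ((Int.gcd (z i) (z j) : ℕ) : ℤ) := by
      refine a2 _ fun k => ?_
      have d1 : ((Int.gcd (z i) (z j) : ℕ) : ℤ) ∣ z i := Int.gcd_dvd_left _ _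
      have d2 : ((Int.gcd (z i) (z j) : ℕ) : ℤ) ∣ z j := Int.gcd_dvd_right _ _
      obtain ⟨d, hd⟩ : ∃ d : ℤ, d = ((Int.gcd (z i) (z j) : ℕ) : ℤ) := ⟨_, rfl⟩
      rw [← hd] at d1 d2 ⊢
      subst hn3
      have hun : ∀ i j k : Fin 3, i ≠ j → k ≠ i → k ≠ j →
          (Finset.univ : Finset (Fin 3)) = {i, j, k} := by decide
      by_cases hk1 : k = i
      · rw [hk1]; exact d1
      by_cases hk2 : k = j
      · rw [hk2]; exact d2
      have key : z k = -(z i + z j) := by
        rw [hun i j k hij hk1 hk2, Finset.sum_insert (by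
          rw [Finset.mem_insert, Finset.mem_singleton, not_or]
          exact ⟨hij, fun h => hk1 h.symm⟩), Finset.sum_insert (by
          rw [Finset.mem_singleton]
          exact fun h => hk2 h.symm), Finset.sum_singleton] at hs0
        linarith
      rw [key]
      exact (dvd_add d1 d2).neg_right
    have e3 := Int.isUnit_iff.1 e2
    omega
  · intro h2 h1
    rw [zeros_eq]
    rw [rationalZeros_eq] at h1
    exact two_T1 hP h2 h1
  · intro M c δ hM hc hδ
    obtain ⟨C, -, h⟩ := h5 M c δ hM hc hδ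
    exact ⟨C, h⟩
  · intro M c hM hc
    exact h6 M c hM hc

end Pool.Agent.Results.MP_7ecdd4_nt.AlmostAllOnCurves
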