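import Pool.Agent.Q10.KZ8

/-!
# The strong n-conjecture on rational curves whose zeros need not be rational

`P 0, ..., P (n-1)` are pairwise coprime polynomials over `ℚ` (also at infinity) with sum zero, of
maximal degree `D`. Their product is an arbitrary polynomial: its irreducible factors over `ℚ` may
have any degree. We count the tuples of nonzero integers with greatest common divisor one on the
curve `x ↦ (P 0 (x) : ... : P (n-1) (x))` by their radical: all of them, of whatever size, and those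
of polynomially bounded size.
-/

set_option autoImplicit false

namespace Pool.Agent.Results.MP_7ecdd4_nt.CurvesWithIrrationalZeros

open Polynomial

open Classical in
/-- the different monic irreducible factors over `ℚ` of the product of the `P i` -/
noncomputable def factors {n : ℕ} (P : Fin n → ℚ[X]) : Finset ℚ[X] :=
  (UniqueFactorizationMonoid.normalizedFactors (∏ i, P i)).toFinset

open Classical in
/-- the number of the different points of the projective line over an algebraic closure of `ℚ` at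
which the curve meets the coordinate hyperplanes (infinity is one of them if the degrees of the
`P i` are not all equal) -/
noncomputable def zeros {n : ℕ} (P : Fin n → ℚ[X]) : ℕ :=
  ∑ g ∈ factors P, g.natDegree + if ∃ i j, (P i).natDegree < (P j).natDegree then 1 else 0

open Classical in
/-- the number of the rational points among them -/
noncomputable def rationalZeros {n : ℕ} (P : Fin n → ℚ[X]) : ℕ :=
  ((factors P).filter fun g => g.natDegree = 1).card +
    if ∃ i j, (P i).natDegree < (P j).natDegree then 1 else 0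

open Classical in
/-- the number of the irreducible factors of degree at least two, plus half the number of the
rational zeros if there are at least two of them -/
noncomputable def S₁ {n : ℕ} (P : Fin n → ℚ[X]) : ℝ :=
  (((factors P).filter fun g => 2 ≤ g.natDegree).card : ℝ) +
    if 2 ≤ rationalZeros P then (rationalZeros P : ℝ) / 2 else 0

open Classical in
/-- the number of the irreducible factors of degree at least three, plus half the number of the
rational zeros if there are at least three of them -/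
noncomputable def S₂ {n : ℕ} (P : Fin n → ℚ[X]) : ℝ :=
  (((factors P).filter fun g => 3 ≤ g.natDegree).card : ℝ) +
    if 3 ≤ rationalZeros P then (rationalZeros P : ℝ) / 2 else 0

/-- the admissible tuples of the problem -/
def Admissible {n : ℕ} (z : Fin n → ℤ) : Prop :=
  (∀ i, z i ≠ 0) ∧ (∀ i j, i ≠ j → IsCoprime (z i) (z j)) ∧ ∑ i, z i = 0

/-- the radical of the product of the coordinates -/
def rad {n : ℕ} (z : Fin n → ℤ) : ℕ := ∏ p ∈ (∏ i, z i).natAbs.primeFactors, p

/-- the tuples of nonzero integers with greatest common divisor one which are proportional to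
`(P 0 (x), ..., P (n-1) (x))` for some rational `x`; their sum is zero -/
def OnCurve {n : ℕ} (P : Fin n → ℚ[X]) : Set (Fin n → ℤ) :=
  {z | (∀ i, z i ≠ 0) ∧ (∀ d : ℤ, (∀ i, d ∣ z i) → IsUnit d) ∧
    ∃ x r : ℚ, ∀ i, (z i : ℚ) = r * (P i).eval x}

/-- those with radical at most `X`; there is no condition on their size -/
def Tuples {n : ℕ} (P : Fin n → ℚ[X]) (X : ℝ) : Set (Fin n → ℤ) :=
  {z | z ∈ OnCurve P ∧ (rad z : ℝ) ≤ X}

/-- those with radical at most `X` and coordinates of absolute value at most `B` -/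
def TuplesUpTo {n : ℕ} (P : Fin n → ℚ[X]) (X B : ℝ) : Set (Fin n → ℤ) :=
  {z | z ∈ Tuples P X ∧ ∀ i, |(z i : ℝ)| ≤ B}

section
variable {n : ℕ} {P : Fin n → ℚ[X]}

open Pool.Agent.Q10.KZ

theorem zeros_eq : zeros P = nQ P := by
  classical
  unfold zeros nQ Uneq
  congr!

theorem rationalZeros_eq : rationalZeros P = nL P := by
  classical
  unfold rationalZeros nL Uneq
  congr!

theorem S₁_eq : S₁ P = T1 P := by
  unfold S₁ T1
  rw [rationalZeros_eq]
  rfl

theorem S₂_eq : S₂ P = T2 P := by
  unfold S₂ T2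
  rw [rationalZeros_eq]
  rfl

theorem tuples_eq (X : ℝ) : Tuples P X = TA P (fun _ => True) X := by
  ext z
  constructor
  · rintro ⟨⟨h1, h2, h3⟩, h5⟩
    exact ⟨h1, h2, h3, trivial, h5⟩
  · rintro ⟨h1, h2, h3, -, h5⟩
    exact ⟨⟨h1, h2, h3⟩, h5⟩

theorem tuplesUpTo_eq (hn : 0 < n) (X B : ℝ) :
    TuplesUpTo P X B = TAB P (fun _ => True) X B := by
  ext z
  unfold TuplesUpTo TAB
  rw [Set.mem_ofPred_eq, Set.mem_ofPred_eq, tuples_eq, mz_le_iff hn]

end

open Pool.Agent.Q10.KZ in
/-- **Theorem.** Let `P 0, ..., P (n-1)` be nonzero polynomials over `ℚ` with sum zero, of maximal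
degree `D ≥ 1`, pairwise coprime also at infinity (at most one of them has degree less than `D`),
with `q` different zeros on the projective line in all.

(0) All admissible tuples proportional to `(P 0 (x), ..., P (n-1) (x))` for some rational `x` are
tuples on the curve, and for `n = 3` all tuples on the curve are admissible.

(1) For all `κ, ε > 0` there are at most `C X ^ (1 / S₁ + ε)` tuples on the curve with radical at
most `X` and `max |z i| ≤ X ^ κ`.

(2) If `S₂ > 0` (the product of the `P i` has an irreducible factor of degree at least three, or the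
curve has at least three rational zeros), then there are at most `C X ^ (1 / S₂ + ε)` tuples on the
curve with radical at most `X`, whatever their size.

(3) For `κ > D / q` there are at least `c X ^ (2 / q)` tuples on the curve with radical at most `X`
and `max |z i| ≤ X ^ κ`, if `X` is large.

(4) If the irreducible factors of the product of the `P i` have degree one or two and the number of
the rational zeros is not one, then for every `κ > D / q` the number of the tuples in (3) is
`X ^ (2 / q + o(1))`. -/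
theorem result (n : ℕ) (P : Fin n → ℚ[X]) (hP : ∀ i, P i ≠ 0) (hsum : ∑ i, P i = 0)
    (hcop : ∀ i j, i ≠ j → IsCoprime (P i) (P j))
    (D : ℕ) (hD : 1 ≤ D) (hdeg : ∀ i, (P i).natDegree ≤ D)
    (hinf : ∀ i j, i ≠ j → (P i).natDegree = D ∨ (P j).natDegree = D)
    (hn : 3 ≤ n) (q : ℕ) (hq : zeros P = q) :
    ((∀ z : Fin n → ℤ, Admissible z → (∃ x r : ℚ, ∀ i, (z i : ℚ) = r * (P i).eval x) →
      z ∈ OnCurve P) ∧ (n = 3 → ∀ z ∈ OnCurve P, Admissible z)) ∧
    (∀ κ ε : ℝ, 0 < κ → 0 < ε → ∃ C : ℝ, ∀ X : ℝ, 1 ≤ X →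
      (TuplesUpTo P X (X ^ κ)).Finite ∧
      ((TuplesUpTo P X (X ^ κ)).ncard : ℝ) ≤ C * X ^ (1 / S₁ P + ε)) ∧
    (0 < S₂ P → ∀ ε : ℝ, 0 < ε → ∃ C : ℝ, ∀ X : ℝ, 1 ≤ X →
      (Tuples P X).Finite ∧ ((Tuples P X).ncard : ℝ) ≤ C * X ^ (1 / S₂ P + ε)) ∧
    (∀ κ : ℝ, (D : ℝ) / q < κ → ∃ c : ℝ, 0 < c ∧ ∃ X₀ : ℝ, ∀ X : ℝ, X₀ ≤ X →
      c * X ^ (2 / (q : ℝ)) ≤ ((TuplesUpTo P X (X ^ κ)).ncard : ℝ)) ∧
    ((∀ g ∈ factors P, g.natDegree ≤ 2) → rationalZeros P ≠ 1 → ∀ κ : ℝ, (D : ℝ) / q < κ →
      ∀ δ : ℝ, 0 < δ → ∃ X₀ : ℝ, ∀ X : ℝ, X₀ ≤ X →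
        X ^ (2 / (q : ℝ) - δ) ≤ ((TuplesUpTo P X (X ^ κ)).ncard : ℝ) ∧
        ((TuplesUpTo P X (X ^ κ)).ncard : ℝ) ≤ X ^ (2 / (q : ℝ) + δ)) := by
  classical
  have hn0 : 0 < n := by omega
  obtain ⟨i0, i1, hne⟩ : ∃ i j : Fin n, i ≠ j :=
    ⟨⟨0, by omega⟩, ⟨1, by omega⟩, by simp [Fin.ext_iff]⟩
  have hdeg' : ∃ i, (P i).natDegree = D := by
    rcases hinf i0 i1 hne with h | h
    · exact ⟨i0, h⟩
    · exact ⟨i1, h⟩
  have hu : ∃ u : Fin n → ℚ[X], ∑ i, u i * P i = 1 := by
    obtain ⟨a, b, hab⟩ := hcop i0 i1 hne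
    refine ⟨fun k => if k = i0 then a else if k = i1 then b else 0, ?_⟩
    have e1 : ∀ k, (if k = i0 then a else if k = i1 then b else 0) * P k =
        (if k = i0 then a * P i0 else 0) + if k = i1 then b * P i1 else 0 := by
      intro k
      by_cases h1 : k = i0
      · subst h1
        rw [if_pos rfl, if_pos rfl, if_neg hne, add_zero]
      · rw [if_neg h1, if_neg h1]
        by_cases h2 : k = i1
        · subst h2
          rw [if_pos rfl, if_pos rfl, zero_add]
        · rw [if_neg h2, if_neg h2, zero_mul, zero_add]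
    rw [Finset.sum_congr rfl fun k _ => e1 k, Finset.sum_add_distrib,
      Finset.sum_ite_eq' Finset.univ i0, Finset.sum_ite_eq' Finset.univ i1,
      if_pos (Finset.mem_univ _), if_pos (Finset.mem_univ _)]
    exact hab
  rw [zeros_eq] at hq
  have hA : ∀ z : Fin n → ℤ, (∀ i, z i ≠ 0) → Pool.Agent.Y557.NF.Prim z → ∀ x r : ℚ,
      x ∉ (∅ : Set ℚ) → (∀ i, (z i : ℚ) = r * (P i).eval x) → (fun _ => True) z :=
    fun z hz _ x r hx h => trivial
  obtain ⟨h1, h2, h3, h4⟩ := tuplesQ hP hu hD hdeg hdeg' (fun _ => True) Set.finite_empty hA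
  rw [hq] at h3 h4
  simp only [tuplesUpTo_eq hn0, tuples_eq, S₁_eq, S₂_eq,
    rationalZeros_eq]
  refine ⟨⟨?_, ?_⟩, ?_, ?_, ?_, ?_⟩
  · rintro z ⟨a1, a2, a3⟩ h
    refine ⟨a1, fun d hd => ?_, h⟩
    exact (a2 i0 i1 hne).isUnit_of_dvd' (hd i0) (hd i1)
  · rintro hn3 z ⟨a1, a2, x, r, h⟩
    have hs0 : ∑ i, z i = 0 := by
      have e1 : ((∑ i, z i : ℤ) : ℚ) = 0 := by
        push_cast
        rw [Finset.sum_congr rfl fun i _ => h i, ← Finset.mul_sum, ← eval_finsetSum, hsum,
          eval_zero, mul_zero]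
      exact_mod_cast e1
    refine ⟨a1, fun i j hij => ?_, hs0⟩
    rw [Int.isCoprime_iff_gcd_eq_one]
    have e2 : IsUnit ((Int.gcd (z i) (z j) : ℕ) : ℤ) := by
      refine a2 _ fun k => ?_
      have d1 : ((Int.gcd (z i) (z j) : ℕ) : ℤ) ∣ z i := Int.gcd_dvd_left _ _
      have d2 : ((Int.gcd (z i) (z j) : ℕ) : ℤ) ∣ z j := Int.gcd_dvd_right _ _
      obtain ⟨d, hd⟩ : ∃ d : ℤ, d = ((Int.gcd (z i) (z j) : ℕ) : ℤ) := ⟨_, rfl⟩
      rw [← hd] at d1 d2 ⊢
      subst hn3
      have hun : ∀ i j k : Fin 3, i ≠ j → k ≠ i → k ≠ j →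
          (Finset.univ : Finset (Fin 3)) = {i, j, k} := by decide
      by_cases hk1 : k = i
      · rw [hk1]; exact d1
      by_cases hk2 : k = j
      · rw [hk2]; exact d2
      have key : z k = -(z i + z j) := by
        rw [hun i j k hij hk1 hk2, Finset.sum_insert (by
          rw [Finset.mem_insert, Finset.mem_singleton, not_or]
          exact ⟨hij, fun h => hk1 h.symm⟩), Finset.sum_insert (by
          rw [Finset.mem_singleton]
          exact fun h => hk2 h.symm), Finset.sum_singleton] at hs0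
        linarith
      rw [key]
      exact (dvd_add d1 d2).neg_right
    have e3 := Int.isUnit_iff.1 e2
    omega
  · intro κ ε hκ hε
    obtain ⟨C, -, h⟩ := h1 κ ε hκ hε
    exact ⟨C, h⟩
  · intro hS ε hε
    obtain ⟨C, -, h⟩ := h2 hS ε hε
    exact ⟨C, h⟩
  · intro κ hκ
    obtain ⟨c, hc, X₀, -, h⟩ := h3 κ hκ
    exact ⟨c, hc, X₀, h⟩
  · intro hd hr κ hκ δ hδ
    obtain ⟨X₀, -, h⟩ := h4 hd hr κ hκ δ hδ
    exact ⟨X₀, h⟩

end Pool.Agent.Results.MP_7ecdd4_nt.CurvesWithIrrationalZeros
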