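import Pool.Agent.Q38.NC.Exact

/-!
# The strong `n`-conjecture: the exact order of the number of exceptions for small exponents

For `n ≥ 4` and `1/n < M < 1/(n-1)` we determine the exponent of the number of admissible `n`-tuples
which violate `max |x_j| ≤ rad (x_1 ⋯ x_n) ^ M`: ordered by the size the exponent is `1/M - 1`; ordered
by the radical it is `1 - M` for the tuples with `rad ^ M ≤ max < rad ^ L`, `L ≤ (1 - M)/(n - 2)`.
The exponents do not change when the tuples with a vanishing subsum are left out.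
-/

set_option autoImplicit false

namespace Pool.Agent.Results.MP_7ecdd4_nt.ExactCountOfExceptions

open Filter Topology

/-- `x` is an admissible tuple: non-zero pairwise coprime integers with sum zero. -/
def Admissible {n : ℕ} (x : Fin n → ℤ) : Prop :=
  (∀ i, x i ≠ 0) ∧ (∀ i j, i ≠ j → Int.gcd (x i) (x j) = 1) ∧ ∑ i, x i = 0

/-- No sub-sum over a non-empty proper set of indices vanishes. -/
def NoVanishingSubsum {n : ℕ} (x : Fin n → ℤ) : Prop :=
  ∀ I : Finset (Fin n), I.Nonempty → I ≠ Finset.univ → ∑ i ∈ I, x i ≠ 0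

/-- The radical of `x_1 ⋯ x_n`: the product of the primes dividing it. -/
def rad {n : ℕ} (x : Fin n → ℤ) : ℕ := ∏ p ∈ (∏ i, x i).natAbs.primeFactors, p

/-- The size `max |x_j|`. -/
def size {n : ℕ} (x : Fin n → ℤ) : ℕ := Finset.univ.sup fun i => (x i).natAbs

/-- The admissible tuples of size at most `X` which violate `max |x_j| ≤ rad ^ M`. -/
def Exceptions (n : ℕ) (M X : ℝ) : Set (Fin n → ℤ) :=
  {x | Admissible x ∧ (size x : ℝ) ≤ X ∧ (rad x : ℝ) ^ M < size x}

/-- The admissible tuples of radical at most `X` with `rad ^ M ≤ max |x_j| < rad ^ L`. -/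
def Between (n : ℕ) (M L X : ℝ) : Set (Fin n → ℤ) :=
  {x | Admissible x ∧ (rad x : ℝ) ≤ X ∧ (rad x : ℝ) ^ M ≤ size x ∧ (size x : ℝ) < (rad x : ℝ) ^ L}

open Pool.Agent.Q38.NC Pool.Agent.Q38.AE.Cov

theorem adm_iff {n : ℕ} (x : Fin n → ℤ) : Admissible x ↔ Adm x :=
  ⟨fun h => ⟨h.1, h.2.1, h.2.2⟩, fun h => ⟨h.ne, h.cop, h.sum⟩⟩

theorem size_pos {n : ℕ} (hn : 4 ≤ n) {x : Fin n → ℤ} (h : Admissible x) : (0 : ℝ) < size x := by
  exact_mod_cast ht_pos (by omega) ((adm_iff x).1 h)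

theorem rad_pos' {n : ℕ} (x : Fin n → ℤ) : (0 : ℝ) < rad x := by exact_mod_cast RX_pos x

theorem exc_eq {n : ℕ} (hn : 4 ≤ n) {M : ℝ} (hM : 0 < M) (Q : (Fin n → ℤ) → Prop) (X : ℝ) :
    {x ∈ Exceptions n M X | Q x} = Z (fun x => Adm x ∧ Q x) M X := by
  ext x
  constructor
  · rintro ⟨⟨h1, h2, h3⟩, h4⟩
    have hs := size_pos hn h1
    refine ⟨⟨(adm_iff x).1 h1, h4⟩, ?_, ?_⟩
    · show Real.exp (Real.log (size x)) ≤ X
      rw [Real.exp_log hs]
      exact h2
    · show Real.log (rad x) < 1 / M * Real.log (size x)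
      have h5 := Real.log_lt_log (Real.rpow_pos_of_pos (rad_pos' x) M) h3
      rw [Real.log_rpow (rad_pos' x)] at h5
      rw [one_div, ← div_eq_inv_mul, lt_div_iff₀ hM]
      linarith
  · rintro ⟨⟨h1, h4⟩, h2, h3⟩
    have h1' := (adm_iff x).2 h1
    have hs := size_pos hn h1'
    refine ⟨⟨h1', ?_, ?_⟩, h4⟩
    · have h5 : Real.exp (Real.log (size x)) ≤ X := h2
      rwa [Real.exp_log hs] at h5
    · have h5 : Real.log (rad x) < 1 / M * Real.log (size x) := h3
      rw [one_div, ← div_eq_inv_mul, lt_div_iff₀ hM] at h5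
      rw [← Real.log_lt_log_iff (Real.rpow_pos_of_pos (rad_pos' x) M) hs,
        Real.log_rpow (rad_pos' x)]
      linarith

theorem bet_eq {n : ℕ} (hn : 4 ≤ n) (M L : ℝ) (Q : (Fin n → ℤ) → Prop) (X : ℝ) :
    {x ∈ Between n M L X | Q x} = F (fun x => Adm x ∧ Q x) lh lr M L X := by
  ext x
  have hr := rad_pos' x
  constructor
  · rintro ⟨⟨h1, h2, h3, h4⟩, h5⟩
    have hs := size_pos hn h1
    refine ⟨⟨(adm_iff x).1 h1, h5⟩, ?_, ?_, ?_⟩
    · show Real.exp (Real.log (rad x)) ≤ X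
      rw [Real.exp_log hr]
      exact h2
    · show M * Real.log (rad x) ≤ Real.log (size x)
      rw [← Real.log_rpow hr]
      exact Real.log_le_log (Real.rpow_pos_of_pos hr M) h3
    · show Real.log (size x) < L * Real.log (rad x)
      rw [← Real.log_rpow hr]
      exact Real.log_lt_log hs h4
  · rintro ⟨⟨h1, h5⟩, h2, h3, h4⟩
    have h1' := (adm_iff x).2 h1
    have hs := size_pos hn h1'
    refine ⟨⟨h1', ?_, ?_, ?_⟩, h5⟩
    · have h6 : Real.exp (Real.log (rad x)) ≤ X := h2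
      rwa [Real.exp_log hr] at h6
    · have h6 : M * Real.log (rad x) ≤ Real.log (size x) := h3
      rw [← Real.log_le_log_iff (Real.rpow_pos_of_pos hr M) hs, Real.log_rpow hr]
      exact h6
    · have h6 : Real.log (size x) < L * Real.log (rad x) := h4
      rw [← Real.log_lt_log_iff hs (Real.rpow_pos_of_pos hr L), Real.log_rpow hr]
      exact h6

/-- Let `n ≥ 4` and `1/n < M < 1/(n-1)`.
(1) The number of the admissible `n`-tuples with `max |x_j| ≤ X` which violate
`max |x_j| ≤ rad (x_1 ⋯ x_n) ^ M` is finite and equal to `X ^ (1/M - 1 + o(1))` for `X → ∞`, and so is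
the number of those among them without a vanishing subsum.
(2) Let `M < L ≤ (1 - M)/(n - 2)`. The number of the admissible `n`-tuples with `rad ≤ X` and
`rad ^ M ≤ max |x_j| < rad ^ L` is finite for `X ≥ 1` and equal to `X ^ (1 - M + o(1))` for `X → ∞`, and
so is the number of those among them without a vanishing subsum. -/
theorem result (n : ℕ) (hn : 4 ≤ n) (M : ℝ) (h1 : 1 / (n : ℝ) < M) (h2 : M < 1 / ((n : ℝ) - 1)) :
    ((∀ X : ℝ, 1 ≤ X → (Exceptions n M X).Finite) ∧
      Tendsto (fun X : ℝ => Real.log ((Exceptions n M X).ncard : ℝ) / Real.log X) atTop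
        (𝓝 (1 / M - 1)) ∧
      Tendsto (fun X : ℝ =>
        Real.log (({x ∈ Exceptions n M X | NoVanishingSubsum x}).ncard : ℝ) / Real.log X) atTop
        (𝓝 (1 / M - 1))) ∧
    (∀ L : ℝ, M < L → L ≤ (1 - M) / ((n : ℝ) - 2) →
      (∀ X : ℝ, 1 ≤ X → (Between n M L X).Finite) ∧
      Tendsto (fun X : ℝ => Real.log ((Between n M L X).ncard : ℝ) / Real.log X) atTop
        (𝓝 (1 - M)) ∧
      Tendsto (fun X : ℝ =>
        Real.log (({x ∈ Between n M L X | NoVanishingSubsum x}).ncard : ℝ) / Real.log X) atTop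
        (𝓝 (1 - M))) := by
  obtain ⟨hM0, -, -, -⟩ := inv_facts hn h1 h2
  have eT : ∀ X : ℝ, Exceptions n M X = Z (fun x => Adm x ∧ True) M X := by
    intro X
    rw [← exc_eq hn hM0 (fun _ => True) X]
    ext x
    simp
  have eT' : ∀ L X : ℝ, Between n M L X = F (fun x => Adm x ∧ True) lh lr M L X := by
    intro L X
    rw [← bet_eq hn M L (fun _ => True) X]
    ext x
    simp
  refine ⟨⟨fun X hX => ?_, ?_, ?_⟩, fun L hML hL => ⟨fun X hX => ?_, ?_, ?_⟩⟩
  · rw [eT]
    obtain ⟨C, -, h⟩ := Z_up (P := fun x => Adm x ∧ True) hn (fun _ h => h.1) h1 h2 1 one_pos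
    exact (h X hX).1
  · simp only [eT]
    exact Z_exact hn (fun _ h => h.1) (fun _ h _ => ⟨h, trivial⟩) h1 h2
  · simp only [exc_eq hn hM0]
    exact Z_exact hn (fun _ h => h.1) (fun _ h h' => ⟨h, h'⟩) h1 h2
  · rw [eT']
    exact (F_exact (P := fun x => Adm x ∧ True) hn (fun _ h => h.1)
      (fun _ h _ => ⟨h, trivial⟩) h1 h2 hML hL).1 X hX
  · simp only [eT']
    exact (F_exact hn (fun _ h => h.1) (fun _ h _ => ⟨h, trivial⟩) h1 h2 hML hL).2
  · simp only [bet_eq hn]
    exact (F_exact hn (fun _ h => h.1) (fun _ h h' => ⟨h, h'⟩) h1 h2 hML hL).2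

end Pool.Agent.Results.MP_7ecdd4_nt.ExactCountOfExceptions
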