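import Pool.Agent.Results.MP_7ecdd4_nt.FewExceptions
import Pool.Agent.Results.MP_7ecdd4_nt.CountByRadicalSharp
import Pool.Agent.Q21.DW.Cnt

/-!
# The strong `n`-conjecture for all tuples of random heights or radicals

`RandomReals θ G` (see `Pool.Agent.Q21.DW.Real`) says that the property `G` of natural numbers holds for ALL numbers read
off from long windows of digits of almost every real number (in every base `g`, windows of length `k` at all positions up
to `g ^ (κ k)`, `κ < 1 - θ`), with exceptional sets of Hausdorff dimension at most `(θ + η) / (1 + η)` for the positions up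
to `η k`; and for ALL `m` with `|m - α v_k| ≤ w_k`, `k` large, for all `α > 0` outside a set of `s`-dimensional measure
zero, if `∑ v_k ^ t (w_k / v_k) ^ s` converges for some `t > θ`.

1. Let `n ≥ 4`, `M ≥ 10 / (3 n - 2)` and `θ = (3 n - 5) / ((3 n - 2) M) < 1` (it tends to `0` as `M` tends to infinity).
   The inequality `max |x_i| ≤ rad (x_1 ⋯ x_n) ^ M` for all admissible `n`-tuples with `max |x_i| = m` is such a property.
2. Let `n ≥ 3` and `(n - 1) / n < θ < 1`. There is `η > 0` such that `max |x_i| > exp ((1 + log m) ^ (2 + η))` for all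
   admissible `n`-tuples of radical `m` is such a property. So all tuples of radical `m` and of moderate height, among
   them the violations of the inequality with exponent `M` which are not extremely large, do not exist for these `m`.
-/

set_option autoImplicit false

namespace Pool.Agent.Results.MP_7ecdd4_nt.RandomHeights

/-- `x` is an admissible tuple: non-zero pairwise coprime integers with sum zero. -/
def Admissible {n : ℕ} (x : Fin n → ℤ) : Prop :=
  (∀ i, x i ≠ 0) ∧ (∀ i j, i ≠ j → IsCoprime (x i) (x j)) ∧ ∑ i, x i = 0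

/-- the largest absolute value of an entry -/
def size {n : ℕ} (x : Fin n → ℤ) : ℕ := Finset.univ.sup fun i => (x i).natAbs

/-- the radical of the product of all entries -/
def radical {n : ℕ} (x : Fin n → ℤ) : ℕ := ∏ p ∈ (∏ i, x i).natAbs.primeFactors, p

lemma le_size {n : ℕ} (x : Fin n → ℤ) (i : Fin n) : (x i).natAbs ≤ size x :=
  Finset.le_sup (f := fun i => (x i).natAbs) (Finset.mem_univ i)

lemma fin_box (n N : ℕ) : {x : Fin n → ℤ | ∀ i, |x i| ≤ (N : ℤ)}.Finite := by
  have h : {x : Fin n → ℤ | ∀ i, x i ∈ Set.Icc (-(N : ℤ)) N}.Finite :=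
    Set.Finite.pi' fun _ => Set.finite_Icc _ _
  refine h.subset ?_
  intro x hx i
  exact abs_le.1 (hx i)

/-- **Theorem.** (1) Let `n ≥ 4`, `M ≥ 10 / (3 n - 2)` and `(3 n - 5) / ((3 n - 2) M) < 1`. All admissible `n`-tuples with
`max |x_i| = m` satisfy `max |x_i| ≤ rad (x_1 ⋯ x_n) ^ M`, for all random `m` (`RandomReals`) with the exponent
`(3 n - 5) / ((3 n - 2) M)`. (2) Let `n ≥ 3` and `(n - 1) / n < θ < 1`. There is `η > 0` such that all admissible `n`-tuples
of radical `m` have `max |x_i| > exp ((1 + log m) ^ (2 + η))`, for all random `m` with the exponent `θ`. -/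
theorem result :
    (∀ (n : ℕ) (M : ℝ), 4 ≤ n → 10 / (3 * (n : ℝ) - 2) ≤ M →
      (3 * (n : ℝ) - 5) / ((3 * (n : ℝ) - 2) * M) < 1 →
      Pool.Agent.Q21.DW.RandomReals ((3 * (n : ℝ) - 5) / ((3 * (n : ℝ) - 2) * M))
        (fun (_ : Unit) (m : ℕ) => ∀ x : Fin n → ℤ, Admissible x → size x = m →
          (m : ℝ) ≤ ((radical x : ℕ) : ℝ) ^ M)) ∧
    (∀ (n : ℕ) (θ : ℝ), 3 ≤ n → ((n : ℝ) - 1) / n < θ → θ < 1 → ∃ η : ℝ, 0 < η ∧
      Pool.Agent.Q21.DW.RandomReals θ
        (fun (_ : Unit) (m : ℕ) => ∀ x : Fin n → ℤ, Admissible x → radical x = m →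
          Real.exp ((1 + Real.log m) ^ (2 + η)) < size x)) := by
  refine ⟨fun n M hn hM h1 => ?_, fun n θ hn hθ hθ1 => ?_⟩
  · have hn' : (4 : ℝ) ≤ n := by exact_mod_cast hn
    have h0 : (0 : ℝ) < 3 * (n : ℝ) - 2 := by linarith
    have hM0 : 0 < M := lt_of_lt_of_le (by positivity) hM
    have hs : (0 : ℝ) ≤ (3 * (n : ℝ) - 5) / ((3 * (n : ℝ) - 2) * M) :=
      div_nonneg (by linarith) (by positivity)
    refine Pool.Agent.Q21.DW.randomReals_of (B := fun (_ : Unit) (m : ℕ) => ∃ x : Fin n → ℤ, Admissible x ∧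
      size x = m ∧ ¬ FewExceptions.Holds M x) hs h1 (fun _ => ?_) ?_
    · refine Pool.Agent.Q21.DW.ps_of (T := Fin n → ℤ) (fun X => {x : Fin n → ℤ | FewExceptions.Admissible x ∧
              (∀ i, |x i| ≤ (X : ℤ)) ∧ ¬ FewExceptions.Holds M x}) size _ _ ?_ ?_
      · intro ε hε
        obtain ⟨C, hC⟩ := FewExceptions.result n hn M hM ε hε
        refine ⟨C, fun X hX => ⟨(fin_box n X).subset fun x hx => hx.2.1, ?_⟩⟩
        have h5 := hC X hX
        unfold FewExceptions.exceptions at h5
        exact h5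
      · rintro m N hm hmN ⟨x, hx, hxm, hnot⟩
        refine ⟨x, ⟨⟨hx.1, fun i j hij => Int.isCoprime_iff_gcd_eq_one.1 (hx.2.1 i j hij), hx.2.2⟩, fun i => ?_,
          hnot⟩, hxm⟩
        have h5 := (le_size x i).trans (hxm.le.trans hmN)
        rw [Int.abs_eq_natAbs]
        exact_mod_cast h5
    · intro _ m _ hB x hx hxm
      have hH : FewExceptions.Holds M x := by
        by_contra hcon
        exact hB ⟨x, hx, hxm, hcon⟩
      obtain ⟨i, hi⟩ : ∃ i : Fin n, size x = (x i).natAbs := by
        have : (Finset.univ : Finset (Fin n)).Nonempty := ⟨⟨0, by omega⟩, Finset.mem_univ _⟩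
        obtain ⟨i, -, h⟩ := Finset.exists_mem_eq_sup _ this (fun i => (x i).natAbs)
        exact ⟨i, h⟩
      have h4 := hH i
      have h5 : (m : ℝ) = |((x i : ℤ) : ℝ)| := by
        rw [← hxm, hi, Nat.cast_natAbs, Int.cast_abs]
      rw [h5]
      exact h4
  · have hn' : (3 : ℝ) ≤ n := by exact_mod_cast hn
    obtain ⟨η, hη, C, hC, hcount⟩ := (CountByRadicalSharp.result n hn).1 (θ - ((n : ℝ) - 1) / n) (by linarith)
    have hθ0 : 0 ≤ θ := le_trans (div_nonneg (by linarith) (by linarith)) hθ.le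
    refine ⟨η, hη, Pool.Agent.Q21.DW.randomReals_of (B := fun (_ : Unit) (m : ℕ) => ∃ x : Fin n → ℤ,
      Admissible x ∧ radical x = m ∧ ((size x : ℕ) : ℝ) ≤ Real.exp ((1 + Real.log m) ^ (2 + η)))
      hθ0 hθ1 (fun _ => ?_) ?_⟩
    · refine Pool.Agent.Q21.DW.ps_of (T := Fin n → ℤ) (fun X => CountByRadicalSharp.Tuples n X
        (Real.exp ((1 + Real.log X) ^ (2 + η)))) radical _ _ ?_ ?_
      · intro ε hε
        refine ⟨C, fun X hX => ?_⟩
        have hX' : (1 : ℝ) ≤ X := by exact_mod_cast hX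
        obtain ⟨hfin, hle⟩ := hcount X hX'
        refine ⟨hfin, hle.trans ?_⟩
        rw [add_sub_cancel]
        exact mul_le_mul_of_nonneg_left (Real.rpow_le_rpow_of_exponent_le hX' (by linarith)) hC.le
      · rintro m N hm hmN ⟨x, hx, hxm, hsz⟩
        refine ⟨x, ⟨hx, ?_, fun i => ?_⟩, hxm⟩
        · change ((radical x : ℕ) : ℝ) ≤ N
          rw [hxm]
          exact_mod_cast hmN
        · have h4 : |((x i : ℤ) : ℝ)| ≤ ((size x : ℕ) : ℝ) := by
            have h5 := le_size x i
            have h6 : |((x i : ℤ) : ℝ)| = (((x i).natAbs : ℕ) : ℝ) := by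
              rw [Nat.cast_natAbs, Int.cast_abs]
            rw [h6]
            exact_mod_cast h5
          refine h4.trans (hsz.trans (Real.exp_le_exp.2 ?_))
          have h7 : 0 ≤ Real.log m := Real.log_natCast_nonneg _
          refine Real.rpow_le_rpow (by linarith) ?_ (by linarith)
          have h8 : Real.log m ≤ Real.log N :=
            Real.log_le_log (by exact_mod_cast hm) (by exact_mod_cast hmN)
          linarith
    · intro _ m _ hB x hx hxm
      by_contra hcon
      exact hB ⟨x, hx, hxm, not_lt.1 hcon⟩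

end Pool.Agent.Results.MP_7ecdd4_nt.RandomHeights
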